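import Pool.Agent.W744.GL.Defs

set_option autoImplicit false

open Metric Set Filter Topology Complex
open scoped ComplexConjugate

namespace Pool.Agent.W744.GL
open Pool.Agent.Helper503.Gp (HI IsChar Gl bfac cay PH BlaOn BF mu)

/-- GL-ULCH. -/
def S_ULCH : Prop :=
  (∀ z : ℂ, 0 < z.im → IsChar (pt z)) ∧
  ∀ (ι : Type) (U : Ultrafilter ι) (χ : ι → (ℂ → ℂ) → ℂ), (∀ i, IsChar (χ i)) →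
    IsChar (ulim U χ) ∧ ∀ f, Tendsto (fun i => χ i f) U (𝓝 (ulim U χ f))

/-- GL-AN. Ultrafilter limits of uniformly bounded analytic functions are analytic. -/
def S_AN : Prop :=
  ∀ (ι : Type) (U : Ultrafilter ι) (F : ι → ℂ → ℂ) (S : Set ℂ) (G : ℂ → ℂ) (C : ℝ), IsOpen S →
    (∀ i, DifferentiableOn ℂ (F i) S) → (∀ i, ∀ z ∈ S, ‖F i z‖ ≤ C) →
    (∀ z ∈ S, Tendsto (fun i => F i z) U (𝓝 (G z))) → DifferentiableOn ℂ G S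

/-- GL-SP. Schwarz and Pick. -/
def S_SP : Prop :=
  ∀ f ∈ HI, (∀ z ∈ ball (0 : ℂ) 1, ‖f z‖ ≤ 1) → ∀ z w : ℂ, 0 < z.im → 0 < w.im →
    ‖f (cay w)‖ ≤ ‖f (cay z)‖ + Real.sqrt (1 - PH z w)

/-- GL-G0. -/
def S_G0 : Prop :=
  g0 ∈ HI ∧ (∀ z ∈ ball (0 : ℂ) 1, ‖g0 z‖ ≤ 1) ∧ (∀ z ∈ ball (0 : ℂ) 1, g0 z ≠ 0) ∧
    ∀ w : ℂ, 0 < w.im → g0 (cay w) = Complex.exp (2 * Real.pi * I * w)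

/-- GL-SEPM. Mass of a far part of a horizontal lattice. -/
def S_SEPM : Prop :=
  ∀ ζ ζ₀ : ℂ, 0 < ζ.im → 0 < ζ₀.im → ∃ C : ℝ, 0 < C ∧ ∀ (N : ℕ) (A : Set ℤ) (a : ℤ), 0 < N →
    (∀ n ∈ A, (N : ℤ) ≤ |n - a|) →
      BlaOn (lat ζ) A ∧ mu (lat ζ) A ((a : ℂ) + ζ₀) ≤ C / N ∧
        ∀ n ∈ A, PH (lat ζ n) ((a : ℂ) + ζ₀) ≤ C / N

/-- GL-SEP. -/
def S_SEP : Prop :=
  ∀ (U V : Ultrafilter ℤ) (ζ₀ ζ : ℂ), 0 < ζ₀.im → 0 < ζ.im → (∀ k : ℤ, V ≠ sh U k) →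
    ¬ Gl (lam U ζ₀) (lam V ζ)

/-- GL-DIV. -/
def S_DIV : Prop :=
  ∀ ζ : ℂ, 0 < ζ.im → ∀ f ∈ HI, (∀ n : ℤ, f (cay (lat ζ n)) = 0) →
    ∃ h ∈ HI, ∀ z ∈ ball (0 : ℂ) 1, f z = (g0 z - Complex.exp (2 * Real.pi * I * ζ)) * h z

/-- GL-IF. -/
def S_IF : Prop :=
  ∀ ζ : ℂ, 0 < ζ.im → ∃ C : ℝ, 0 < C ∧ ∀ a : ℤ → ℂ, (∀ n, ‖a n‖ ≤ 1) →
    ∃ F ∈ HI, (∀ z ∈ ball (0 : ℂ) 1, ‖F z‖ ≤ C) ∧ ∀ n : ℤ, F (cay (lat ζ n)) = a n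

/-- GL-INT. -/
def S_INT : Prop :=
  ∀ φ, IsChar φ → ∀ ζ : ℂ, 0 < ζ.im → φ g0 = Complex.exp (2 * Real.pi * I * ζ) →
    ∃ U : Ultrafilter ℤ, φ = lam U ζ

/-- GL-PART. -/
def S_PART : Prop :=
  ∀ (U : Ultrafilter ℤ) (ζ₀ : ℂ), 0 < ζ₀.im → ∀ ψ, IsChar ψ →
    (Gl (lam U ζ₀) ψ ↔ ∃ ζ : ℂ, 0 < ζ.im ∧ ψ = lam U ζ)

/-- GL-FLOW. -/
def S_FLOW : Prop :=
  ∃ U V : Ultrafilter ℤ, V ∈ closure (Set.range (sh U)) ∧ U ∈ closure (Set.range (sh V)) ∧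
    ∀ k : ℤ, V ≠ sh U k

/-- GL-CL. -/
def S_CL : Prop :=
  ∀ U V : Ultrafilter ℤ, V ∈ closure (Set.range (sh U)) → ∀ ζ : ℂ, 0 < ζ.im →
    Cl (lam V ζ) {ψ | ∃ ζ' : ℂ, 0 < ζ'.im ∧ ψ = lam U ζ'}

/-- GL-UL2. The weak star closure of the disc of `lam U` is the set of ultrafilter limits. -/
def S_UL2 : Prop :=
  ∀ U : Ultrafilter ℤ,
    (∀ φ, IsChar φ → Cl φ {ψ | ∃ ζ : ℂ, 0 < ζ.im ∧ ψ = lam U ζ} →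
      ∃ W : Ultrafilter Up, φ = ulim W (fun ζ : Up => lam U ζ)) ∧
    ∀ (W : Ultrafilter Up) (ξ : ℂ), 0 < ξ.im →
      IsChar (ulim W (fun ζ : Up => lam U (mv ζ ξ))) ∧
      Cl (ulim W (fun ζ : Up => lam U (mv ζ ξ))) {ψ | ∃ ζ : ℂ, 0 < ζ.im ∧ ψ = lam U ζ}

/-- GL-TP. Test points. -/
def S_TP : Prop :=
  ∀ M : ℝ, ∃ (J : Finset ℂ) (c : ℝ), 0 < c ∧ (∀ ξ ∈ J, 0 < ξ.im) ∧
    ∀ (ι : Type) (w : ι → ℂ) (C : Set ι), BlaOn w C → ∀ z : ℂ, 0 < z.im → mu w C z ≤ M →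
      ∃ ξ ∈ J, c ≤ ‖BF w C (cay (mv z ξ))‖

/-- GL-SPLIT. -/
def S_SPLIT : Prop :=
  ∀ (ι : Type) (w : ι → ℂ), BlaOn w Set.univ → ∃ A C D : Set ι, C ⊆ A ∧ D ⊆ Aᶜ ∧
    ∀ e : ℂ, 0 < e.im →
      mu w C e ≤ 8 * mu w (A \ C) e + 1000 ∧ mu w (A \ C) e ≤ 8 * mu w C e + 1000 ∧
      mu w D e ≤ 8 * mu w (Aᶜ \ D) e + 1000 ∧ mu w (Aᶜ \ D) e ≤ 8 * mu w D e + 1000

/-- GL-TRIV. -/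
def S_TRIV : Prop :=
  ∀ (U : Ultrafilter ℤ) (W : Ultrafilter Up) (m : (ℂ → ℂ) → ℂ),
    m = ulim W (fun ζ : Up => lam U ζ) →
    (∀ ξ : ℂ, 0 < ξ.im → ulim W (fun ζ : Up => lam U (mv ζ ξ)) = m) →
    ∀ ψ, IsChar ψ → Gl m ψ → ψ = m

/-- GL-DISC. -/
def S_DISC : Prop :=
  ∀ (U : Ultrafilter ℤ) (W : Ultrafilter Up), ∀ f ∈ HI,
    (∀ ξ : ℂ, 0 < ξ.im → (ulim W (fun ζ : Up => lam U (mv ζ ξ)) f).re ≤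
      (ulim W (fun ζ : Up => lam U ζ) f).re) →
    ∀ ξ : ℂ, 0 < ξ.im → (ulim W (fun ζ : Up => lam U (mv ζ ξ)) f).re =
      (ulim W (fun ζ : Up => lam U ζ) f).re

/-- GL-ZORN. -/
def S_ZORN : Prop :=
  ∀ (X : Type) [TopologicalSpace X] [CompactSpace X] [T2Space X] [Nonempty X]
    (A : Submodule ℝ (X → ℝ)), (∀ u ∈ A, Continuous u) →
    (∀ x y : X, x ≠ y → ∃ u ∈ A, u x ≠ u y) →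
    ∀ 𝒮 : Set (Set X), (∀ S ∈ 𝒮, IsClosed S ∧ ∀ u ∈ A, ∃ x ∈ S, ∀ y, u y ≤ u x) →
    ∀ (T : Type) (t₀ : T) (𝒟 : Set (T → X)),
      (∀ Λ ∈ 𝒟, ∀ u ∈ A, (∀ t, u (Λ t) ≤ u (Λ t₀)) → ∀ t, u (Λ t) = u (Λ t₀)) →
    ∃ m : X, (∀ S ∈ 𝒮, m ∈ S) ∧ ∀ Λ ∈ 𝒟, Λ t₀ = m → ∀ t, Λ t = m

end Pool.Agent.W744.GL
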