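import Pool.Agent.W744.GL.Stm
import Pool.Agent.Results.MP_264cca_an.TrivialPart

set_option autoImplicit false

open Metric Set Filter Topology Complex
open scoped ComplexConjugate

namespace Pool.Agent.W744.GL
open Pool.Agent.Helper503.Gp
open Pool.Agent.Results.MP_264cca_an.TrivialPart

lemma t2Max : T2Space MaxSpace := by
  have hind : IsInducing (fun (m : MaxSpace) (f : Hinf) => m f) := ⟨rfl⟩
  have hinj : Function.Injective (fun (m : MaxSpace) (f : Hinf) => m f) := by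
    intro a b h
    apply AlgHom.ext
    intro f
    exact congrFun h f
  exact (IsEmbedding.mk hind hinj).t2Space

lemma cont_ev (f : Hinf) : Continuous (fun m : MaxSpace => m f) := by
  have hind : IsInducing (fun (m : MaxSpace) (f : Hinf) => m f) := ⟨rfl⟩
  exact (continuous_apply f).comp hind.continuous

lemma compactMax (h : S_ULCH) : CompactSpace MaxSpace := by
  refine ⟨isCompact_iff_ultrafilter_le_nhds.2 fun W _ => ?_⟩
  obtain ⟨hc, ht⟩ := h.2 MaxSpace W up up_char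
  refine ⟨dn (ulim W up) hc, mem_univ _, ?_⟩
  have hind : IsInducing (fun (m : MaxSpace) (f : Hinf) => m f) := ⟨rfl⟩
  rw [hind.nhds_eq_comap, ← tendsto_iff_comap, tendsto_pi_nhds]
  intro f
  have h1 := ht (ex f)
  have h2 : (fun m : MaxSpace => up m (ex f)) = fun m => m f := by
    funext m; exact up_ex m f
  rw [h2] at h1
  exact h1

lemma mv_im (z ξ : ℂ) : (mv z ξ).im = z.im * ξ.im := by
  simp [mv]

lemma mv_I (z : ℂ) : mv z I = z := by
  apply Complex.ext <;> simp [mv]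

lemma mv_pos (z ξ : ℂ) (hz : 0 < z.im) (hξ : 0 < ξ.im) : 0 < (mv z ξ).im := by
  rw [mv_im]; exact mul_pos hz hξ

lemma lam_char (h : S_ULCH) (U : Ultrafilter ℤ) {ζ : ℂ} (hζ : 0 < ζ.im) : IsChar (lam U ζ) := by
  refine (h.2 ℤ U _ fun a => h.1 _ ?_).1
  simpa using hζ

lemma lam_tend (h : S_ULCH) (U : Ultrafilter ℤ) {ζ : ℂ} (hζ : 0 < ζ.im) (f : ℂ → ℂ) :
    Tendsto (fun a : ℤ => pt ((a : ℂ) + ζ) f) U (𝓝 (lam U ζ f)) := by
  refine (h.2 ℤ U _ fun a => h.1 _ ?_).2 f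
  simpa using hζ

lemma lam_g0 (h : S_ULCH) (hg : S_G0) (U : Ultrafilter ℤ) {ζ : ℂ} (hζ : 0 < ζ.im) :
    lam U ζ g0 = Complex.exp (2 * Real.pi * I * ζ) := by
  have h1 := lam_tend h U hζ g0
  have h2 : (fun a : ℤ => pt ((a : ℂ) + ζ) g0) =
      fun _ => Complex.exp (2 * Real.pi * I * ζ) := by
    funext a
    rw [pt, if_pos hg.1, hg.2.2.2 _ (by simpa using hζ), mul_add, Complex.exp_add]
    have : Complex.exp (2 * Real.pi * I * (a : ℂ)) = 1 := by
      rw [Complex.exp_eq_one_iff]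
      exact ⟨a, by ring⟩
    rw [this, one_mul]
  rw [h2] at h1
  exact tendsto_nhds_unique h1 tendsto_const_nhds

section
variable (hU : S_ULCH) (hP : S_PART)

/-- the point of the maximal ideal space -/
noncomputable def pp (hU : S_ULCH) (U : Ultrafilter ℤ) (ζ : ℂ) (hζ : 0 < ζ.im) : MaxSpace :=
  dn (lam U ζ) (lam_char hU U hζ)

lemma up_pp (U : Ultrafilter ℤ) (ζ : ℂ) (hζ : 0 < ζ.im) : up (pp hU U ζ hζ) = lam U ζ := up_dn _

lemma mem_part_iff (hP : S_PART) (U : Ultrafilter ℤ) (ζ : ℂ) (hζ : 0 < ζ.im) (y : MaxSpace) :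
    y ∈ part (pp hU U ζ hζ) ↔ ∃ ζ' : ℂ, 0 < ζ'.im ∧ up y = lam U ζ' := by
  change rho _ _ < 1 ↔ _
  rw [rho_lt_iff, up_pp]
  exact hP U ζ hζ _ (up_char y)

lemma cl_iff (hP : S_PART) (U : Ultrafilter ℤ) (ζ : ℂ) (hζ : 0 < ζ.im) (y : MaxSpace) :
    y ∈ closure (part (pp hU U ζ hζ)) ↔
      Cl (up y) {ψ | ∃ ζ' : ℂ, 0 < ζ'.im ∧ ψ = lam U ζ'} := by
  rw [closure_iff]
  constructor
  · intro h s ε hε
    classical
    obtain ⟨x, hx, hxs⟩ := h (s.image resd) ε hε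
    obtain ⟨ζ', hζ', hx'⟩ := (mem_part_iff hU hP U ζ hζ x).1 hx
    refine ⟨up x, ⟨ζ', hζ', hx'⟩, fun f hf => ?_⟩
    by_cases hfH : f ∈ HI
    · rw [up_apply _ hfH, up_apply _ hfH]
      have h4 := hxs (resd f) (Finset.mem_image_of_mem resd hf)
      rwa [resd_apply hfH] at h4
    · rw [(up_char x).2.2.2 f hfH, (up_char y).2.2.2 f hfH, sub_self, norm_zero]
      exact hε
  · intro h s ε hε
    classical
    obtain ⟨ψ, ⟨ζ', hζ', hψ⟩, h3⟩ := h (s.image ex) ε hε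
    refine ⟨pp hU U ζ' hζ', (mem_part_iff hU hP U ζ hζ _).2 ⟨ζ', hζ', up_pp hU U ζ' hζ'⟩,
      fun f hf => ?_⟩
    have h4 := h3 (ex f) (Finset.mem_image_of_mem ex hf)
    rw [hψ, ← up_pp hU U ζ' hζ', up_ex, up_ex] at h4
    exact h4

lemma Iim : 0 < (I : ℂ).im := by simp

lemma closure_sub (hP : S_PART) (hC : S_CL) {U V : Ultrafilter ℤ}
    (hV : V ∈ closure (Set.range (sh U))) :
    closure (part (pp hU V I Iim)) ⊆ closure (part (pp hU U I Iim)) := by
  refine closure_minimal ?_ isClosed_closure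
  intro y hy
  obtain ⟨ζ, hζ, hy'⟩ := (mem_part_iff hU hP V I Iim y).1 hy
  rw [cl_iff hU hP, hy']
  exact hC U V hV ζ hζ

lemma nontriv (hP : S_PART) (hg : S_G0) (U : Ultrafilter ℤ) :
    part (pp hU U I Iim) ≠ {pp hU U I Iim} := by
  intro h
  have h2 : 0 < ((2 : ℂ) * I).im := by simp
  have h1 : pp hU U (2 * I) h2 ∈ part (pp hU U I Iim) :=
    (mem_part_iff hU hP U I Iim _).2 ⟨2 * I, h2, up_pp hU U _ h2⟩
  rw [h, mem_singleton_iff] at h1
  have h3 := congrArg up h1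
  rw [up_pp, up_pp] at h3
  have h4 := congrFun h3 g0
  rw [lam_g0 hU hg U h2, lam_g0 hU hg U Iim] at h4
  have h5 := congrArg (fun z : ℂ => ‖z‖) h4
  simp only [Complex.norm_exp] at h5
  have h6 := Real.exp_injective h5
  have e1 : (2 * (Real.pi : ℂ) * I * (2 * I)).re = -(4 * Real.pi) := by
    have : (2 * (Real.pi : ℂ) * I * (2 * I)) = ((-(4 * Real.pi) : ℝ) : ℂ) := by
      push_cast
      linear_combination (4 * (Real.pi : ℂ)) * Complex.I_sq
    rw [this, Complex.ofReal_re]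
  have e2 : (2 * (Real.pi : ℂ) * I * I).re = -(2 * Real.pi) := by
    have : (2 * (Real.pi : ℂ) * I * I) = ((-(2 * Real.pi) : ℝ) : ℂ) := by
      push_cast
      linear_combination (2 * (Real.pi : ℂ)) * Complex.I_sq
    rw [this, Complex.ofReal_re]
  rw [e1, e2] at h6
  have := Real.pi_pos
  linarith

lemma part_ne (hS : S_SEP) {U V : Ultrafilter ℤ} (h : ∀ k : ℤ, V ≠ sh U k) :
    part (pp hU U I Iim) ≠ part (pp hU V I Iim) := by
  intro he
  have h1 : pp hU V I Iim ∈ part (pp hU V I Iim) := (rho_lt_iff _ _).2 (tv_gl_refl _)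
  rw [← he] at h1
  have h2 := (rho_lt_iff _ _).1 h1
  rw [up_pp, up_pp] at h2
  exact hS U V I I Iim Iim h h2

lemma bdry_max {P S : Set MaxSpace} (h : IsClosedBoundary P S) (hc : CompactSpace MaxSpace)
    (f : Hinf) {k : MaxSpace} (hk : k ∈ closure P) : ∃ y ∈ S, ‖k f‖ ≤ ‖y f‖ := by
  obtain ⟨h1, h2, h3⟩ := h
  have hne : S.Nonempty := by
    have : P.Nonempty := by
      rw [← closure_nonempty_iff]; exact ⟨k, hk⟩
    obtain ⟨x, hx⟩ := this
    obtain ⟨y, hy, -⟩ := h3 f x hx 1 one_pos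
    exact ⟨y, hy⟩
  obtain ⟨y, hy, hmax⟩ := h2.isCompact.exists_isMaxOn hne (cont_ev f).norm.continuousOn
  refine ⟨y, hy, ?_⟩
  have h4 : ∀ x ∈ P, ‖x f‖ ≤ ‖y f‖ := by
    intro x hx
    refine le_of_forall_pos_lt_add fun ε hε => ?_
    obtain ⟨z, hz, hz2⟩ := h3 f x hx ε hε
    have := hmax hz
    simp only [mem_ofPred_eq] at this
    linarith
  have h5 : closure P ⊆ {x | ‖x f‖ ≤ ‖y f‖} :=
    closure_minimal h4 (isClosed_le (cont_ev f).norm continuous_const)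
  exact h5 hk

lemma hinf_bdd (f : Hinf) : ∃ B : ℝ, 0 ≤ B ∧ ∀ m : MaxSpace, ‖m f‖ ≤ B := by
  obtain ⟨C, hC⟩ := f.2.2
  refine ⟨max C 0, le_max_right _ _, fun m => ?_⟩
  rw [← up_ex]
  refine char_le (up_char m) (ex_mem f) fun z hz => ?_
  rw [ex_apply f hz]
  exact (hC _).trans (le_max_left _ _)

lemma bdry_re {P S : Set MaxSpace} (h : IsClosedBoundary P S) (hc : CompactSpace MaxSpace)
    (hP : P.Nonempty) (f : Hinf) : ∃ y ∈ S, ∀ k ∈ closure P, (k f).re ≤ (y f).re := by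
  have hne : S.Nonempty := by
    obtain ⟨x, hx⟩ := hP
    obtain ⟨y, hy, -⟩ := h.2.2 f x hx 1 one_pos
    exact ⟨y, hy⟩
  have hcre : Continuous fun m : MaxSpace => (m f).re := Complex.continuous_re.comp (cont_ev f)
  obtain ⟨y, hy, hmax⟩ := h.2.1.isCompact.exists_isMaxOn hne hcre.continuousOn
  refine ⟨y, hy, fun k hk => ?_⟩
  obtain ⟨B, hB0, hB⟩ := hinf_bdd f
  refine le_of_forall_pos_le_add fun ε hε => ?_
  -- choose t > 0 small with t * B^2 ≤ 2 ε
  obtain ⟨t, ht0, ht⟩ : ∃ t : ℝ, 0 < t ∧ t * B ^ 2 ≤ 2 * ε := by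
    refine ⟨2 * ε / (B ^ 2 + 1), by positivity, ?_⟩
    rw [div_mul_eq_mul_div, div_le_iff₀ (by positivity)]
    nlinarith [sq_nonneg B]
  obtain ⟨z, hz, hzk⟩ := bdry_max h hc (1 + (t : ℂ) • f) hk
  have hexp : ∀ m : MaxSpace, ‖m (1 + (t : ℂ) • f)‖ ^ 2 =
      1 + 2 * t * (m f).re + t ^ 2 * ‖m f‖ ^ 2 := by
    intro m
    rw [map_add, map_one, map_smul, smul_eq_mul]
    rw [← Complex.normSq_eq_norm_sq, ← Complex.normSq_eq_norm_sq, Complex.normSq_apply,
      Complex.normSq_apply]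
    simp
    ring
  have h1 := pow_le_pow_left₀ (norm_nonneg _) hzk 2
  rw [hexp, hexp] at h1
  have h2 : ‖z f‖ ^ 2 ≤ B ^ 2 := pow_le_pow_left₀ (norm_nonneg _) (hB z) 2
  have h3 := hmax hz
  simp only [mem_ofPred_eq] at h3
  have h4 : 2 * t * (k f).re ≤ 2 * t * (z f).re + t ^ 2 * B ^ 2 := by
    have : 0 ≤ t ^ 2 * ‖k f‖ ^ 2 := by positivity
    have : t ^ 2 * ‖z f‖ ^ 2 ≤ t ^ 2 * B ^ 2 := by gcongr
    linarith
  have h5 : (k f).re ≤ (z f).re + t * B ^ 2 / 2 := by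
    by_contra hcon
    push Not at hcon
    have : 2 * t * ((z f).re + t * B ^ 2 / 2) < 2 * t * (k f).re := by gcongr
    nlinarith
  linarith

/-- the real parts of the functions of the algebra, on a set -/
def ReA (K : Set MaxSpace) : Submodule ℝ (K → ℝ) where
  carrier := {u | ∃ f : Hinf, u = fun k : K => ((k : MaxSpace) f).re}
  add_mem' := by
    rintro _ _ ⟨f, rfl⟩ ⟨g, rfl⟩
    exact ⟨f + g, by funext k; simp⟩
  zero_mem' := ⟨0, by funext k; simp⟩
  smul_mem' := by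
    rintro c _ ⟨f, rfl⟩
    refine ⟨(c : ℂ) • f, ?_⟩
    funext k
    change c * ((k : MaxSpace) f).re = ((k : MaxSpace) ((c : ℂ) • f)).re
    rw [map_smul, smul_eq_mul, Complex.re_ofReal_mul]

theorem main (hU : S_ULCH) (hG : S_G0) (hP : S_PART) (hS : S_SEP) (hF : S_FLOW) (hC : S_CL)
    (hL : S_UL2) (hT : S_TRIV) (hD : S_DISC) (hZ : S_ZORN) :
    ∃ m x y : MaxSpace, part m = {m} ∧ part x ≠ {x} ∧ part y ≠ {y} ∧ part x ≠ part y ∧
      m ∈ shilov (part x) ∧ m ∈ shilov (part y) := by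
  have hcomp := compactMax hU
  have ht2 := t2Max
  obtain ⟨U, V, hUV, hVU, hne⟩ := hF
  set x := pp hU U I Iim with hx
  set y := pp hU V I Iim with hy
  have hcl : closure (part x) = closure (part y) :=
    Subset.antisymm (closure_sub hU hP hC hVU) (closure_sub hU hP hC hUV)
  set K : Set MaxSpace := closure (part x) with hK
  have hxx : x ∈ part x := (rho_lt_iff _ _).2 (tv_gl_refl _)
  have hKc : IsCompact K := isClosed_closure.isCompact
  have : CompactSpace K := isCompact_iff_compactSpace.1 hKc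
  have : Nonempty K := ⟨⟨x, subset_closure hxx⟩⟩
  -- the discs
  let t₀ : Up := ⟨I, Iim⟩
  obtain ⟨m, hmS, hmD⟩ := hZ K (ReA K) (by
      rintro _ ⟨f, rfl⟩
      exact Complex.continuous_re.comp ((cont_ev f).comp continuous_subtype_val))
    (by
      intro a b hab
      have h1 : ∃ f : Hinf, (a : MaxSpace) f ≠ (b : MaxSpace) f := by
        by_contra hcon
        push Not at hcon
        exact hab (Subtype.ext (AlgHom.ext hcon))
      obtain ⟨f, hf⟩ := h1
      by_cases hre : ((a : MaxSpace) f).re = ((b : MaxSpace) f).re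
      · refine ⟨fun k : K => ((k : MaxSpace) ((-I) • f)).re, ⟨(-I) • f, rfl⟩, ?_⟩
        simp only [map_smul, smul_eq_mul]
        intro h2
        apply hf
        apply Complex.ext hre
        simpa using h2
      · exact ⟨fun k : K => ((k : MaxSpace) f).re, ⟨f, rfl⟩, hre⟩)
    {S : Set K | ∃ S' : Set MaxSpace, IsClosedBoundary (part x) S' ∧ S = {k : K | (k : MaxSpace) ∈ S'}}
    (by
      rintro _ ⟨S', hS', rfl⟩
      refine ⟨hS'.2.1.preimage continuous_subtype_val, ?_⟩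
      rintro _ ⟨f, rfl⟩
      obtain ⟨z, hz, hzm⟩ := bdry_re hS' hcomp ⟨x, hxx⟩ f
      exact ⟨⟨z, hS'.1 hz⟩, hz, fun k => hzm k k.2⟩)
    Up t₀
    {Λ : Up → K | ∃ W : Ultrafilter Up, ∀ ξ : Up, up (Λ ξ : MaxSpace) =
      ulim W (fun ζ : Up => lam U (mv ζ ξ))}
    (by
      rintro Λ ⟨W, hW⟩ _ ⟨f, rfl⟩ hle t
      have hb : (fun ζ : Up => lam U (mv ζ (t₀ : ℂ))) = fun ζ : Up => lam U ζ := by
        funext ζ
        change lam U (mv ζ I) = _
        rw [mv_I]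
      have h0 : ∀ s : Up, (Λ s : MaxSpace) f = ulim W (fun ζ : Up => lam U (mv ζ s)) (ex f) := by
        intro s
        rw [← hW s, up_ex]
      have h1 := hD U W (ex f) (ex_mem f) (by
        intro ξ hξ
        have h2 := hle ⟨ξ, hξ⟩
        change ((Λ ⟨ξ, hξ⟩ : MaxSpace) f).re ≤ ((Λ t₀ : MaxSpace) f).re at h2
        rw [h0, h0, hb] at h2
        exact h2) t t.2
      change ((Λ t : MaxSpace) f).re = ((Λ t₀ : MaxSpace) f).re
      rw [h0, h0, hb]
      exact h1)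
  -- the disc through m
  have hmK : (m : MaxSpace) ∈ closure (part x) := m.2
  have hCl := (cl_iff hU hP U I Iim m).1 hmK
  obtain ⟨W, hW⟩ := (hL U).1 _ (up_char _) hCl
  have hdisc : ∀ ξ : Up, ∃ k : K, up (k : MaxSpace) = ulim W (fun ζ : Up => lam U (mv ζ ξ)) := by
    intro ξ
    have hc := ((hL U).2 W ξ ξ.2).1
    have h1 := ((hL U).2 W ξ ξ.2).2
    have h2 : dn _ hc ∈ closure (part x) := by
      rw [cl_iff hU hP U I Iim, up_dn]
      exact h1
    exact ⟨⟨dn _ hc, h2⟩, up_dn hc⟩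
  choose Λ hΛ using hdisc
  have h00 : Λ t₀ = m := by
    apply Subtype.ext
    apply up_inj
    rw [hΛ, hW]
    have hb : (fun ζ : Up => lam U (mv ζ (t₀ : ℂ))) = fun ζ : Up => lam U ζ := by
      funext ζ
      change lam U (mv ζ I) = _
      rw [mv_I]
    rw [hb]
  have hconst := hmD Λ ⟨W, hΛ⟩ h00
  have htriv := hT U W (up m) hW (by
    intro ξ hξ
    have h1 := hΛ ⟨ξ, hξ⟩
    rw [hconst ⟨ξ, hξ⟩] at h1
    exact h1.symm)
  refine ⟨m, x, y, ?_, nontriv hU hP hG U, nontriv hU hP hG V, part_ne hU hS hne, ?_, ?_⟩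
  · ext z
    rw [mem_singleton_iff]
    constructor
    · intro hz
      have h1 := (rho_lt_iff _ _).1 hz
      exact up_inj (htriv _ (up_char z) h1)
    · rintro rfl
      exact (rho_lt_iff _ _).2 (tv_gl_refl _)
  · intro S hSb
    exact hmS _ ⟨S, hSb, rfl⟩
  · intro S hSb
    refine hmS _ ⟨S, ⟨?_, hSb.2.1, ?_⟩, rfl⟩
    · rw [← hK, hcl]; exact hSb.1
    · intro f z hz ε hε
      have h1 : z ∈ closure (part y) := by rw [← hcl]; exact subset_closure hz
      obtain ⟨s, hs, hs2⟩ := bdry_max hSb hcomp f h1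
      exact ⟨s, hs, by linarith⟩

end

end Pool.Agent.W744.GL
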