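import Mathlib
import Pool.Agent.Helper503.Gp.Defs

/-!
Project GL (MP_264cca_an, second question): two different nontrivial Gleason parts of the maximal
ideal space of the bounded analytic functions may have a common point of their Shilov boundaries.

Characters are written as in `Pool.Agent.Helper503.Gp.Defs`: functions `(ℂ → ℂ) → ℂ` with
`IsChar`; `HI` is the set of bounded analytic functions on the disc, `cay` maps the upper half
plane onto the disc, `PH a b = 1 - ρ(a,b)^2` in the upper half plane.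
-/

set_option autoImplicit false

open Metric Set Filter Topology Complex
open scoped ComplexConjugate

namespace Pool.Agent.W744.GL
open Pool.Agent.Helper503.Gp (HI IsChar Gl bfac cay PH BlaOn BF mu)

/-- The open upper half plane. -/
abbrev Up : Type := {z : ℂ // 0 < z.im}

open Classical in
/-- Evaluation at the point `cay z` of the disc. -/
noncomputable def pt (z : ℂ) (f : ℂ → ℂ) : ℂ := if f ∈ HI then f (cay z) else 0

/-- Limit of functionals along an ultrafilter. -/
noncomputable def ulim {ι : Type} (U : Ultrafilter ι) (χ : ι → (ℂ → ℂ) → ℂ) (f : ℂ → ℂ) : ℂ :=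
  limUnder (U : Filter ι) (fun i => χ i f)

/-- The character `f ↦ lim_{a → U} f(a + ζ)` (in upper half plane coordinates). -/
noncomputable def lam (U : Ultrafilter ℤ) (ζ : ℂ) : (ℂ → ℂ) → ℂ :=
  ulim U (fun a : ℤ => pt ((a : ℂ) + ζ))

/-- The point `Re z + (Im z) ξ`. -/
noncomputable def mv (z ξ : ℂ) : ℂ := (z.re : ℂ) + (z.im : ℂ) * ξ

/-- Translation of an ultrafilter on the integers. -/
def sh (U : Ultrafilter ℤ) (k : ℤ) : Ultrafilter ℤ := U.map (fun a => a + k)

/-- The singular inner function `exp (2 π i w)`, `z = cay w`. -/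
noncomputable def g0 (z : ℂ) : ℂ := Complex.exp (-(2 * Real.pi) * ((1 + z) / (1 - z)))

/-- Weak star closure. -/
def Cl (φ : (ℂ → ℂ) → ℂ) (S : Set ((ℂ → ℂ) → ℂ)) : Prop :=
  ∀ s : Finset (ℂ → ℂ), ∀ ε : ℝ, 0 < ε → ∃ ψ ∈ S, ∀ f ∈ s, ‖ψ f - φ f‖ < ε

/-- The zeros `n + ζ`, `n ∈ ℤ`. -/
noncomputable def lat (ζ : ℂ) (n : ℤ) : ℂ := (n : ℂ) + ζ

end Pool.Agent.W744.GL
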